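import Pool.Agent.Lib.MP_a7207a_co.Upper

/-!
# Matrix c*d*-depth and matroid c*d*-depth differ

Two rational `5 × 20` matrices `A` and `A'` with the same column matroid `M`, such that
`c*d*(M) ≤ 4`, `c*d*(A') ≤ 4` and `c*d*(A) ≥ 5`.  The matroid `M` consists of four generic points
and two coplanar lines with eight points each, in rank five.
-/

namespace Pool.Agent.Results.MP_a7207a_co.DepthGap

open Pool.Agent.Lib.MP_a7207a_co

/-- There are rational matrices `A` and `A'` (with five rows and twenty columns) with the same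
column matroid such that the c*d*-depth of `A` is at least five, while the c*d*-depth of the
matroid `M(A) = M(A')` and that of the matrix `A'` are at most four.  (The sets of upper bounds
that define the depths are nonempty, so that all infima are attained.) -/
theorem result : ∃ A A' : Matrix (Fin 5) (Fin 4 ⊕ (Fin 8 ⊕ Fin 8)) ℚ,
    colMatroid A = colMatroid A' ∧
      (∃ k, MatroidDepthLE (colMatroid A) k) ∧ (∃ k, MatrixDepthLE A Set.univ k) ∧
      (∃ k, MatrixDepthLE A' Set.univ k) ∧
      matroidDepth (colMatroid A) ≤ 4 ∧ matrixDepth A' ≤ 4 ∧ 5 ≤ matrixDepth A := by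
  refine ⟨mat 0 rho, mat gam 1, colMatroid_eq okA okA', ⟨4, matroid_upper⟩,
    ⟨6, exists_depth 5 _ _⟩, ⟨6, exists_depth 5 _ _⟩, Nat.sInf_le matroid_upper,
    Nat.sInf_le depth_upper, ?_⟩
  have h1 : MatrixDepthLE (mat 0 rho) Set.univ (matrixDepth (mat 0 rho)) :=
    Nat.sInf_mem (s := {k | MatrixDepthLE (mat 0 rho) Set.univ k}) ⟨6, exists_depth 5 _ _⟩
  by_contra hcon
  exact not_depth4 (by omega) h1

end Pool.Agent.Results.MP_a7207a_co.DepthGap
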